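import Mathlib
import Pool.Agent.Helper877.LocSpec.Defs
import Pool.Agent.Helper877.LocSpec.Proof

set_option autoImplicit false

open Matrix Pool.Agent.Helper877.LocSpec

namespace Pool.Agent.Results.MP_add2b9_al.StandardForm

/-- The set in the definition of the local spectrum does not depend on the decomposition:
it is the index set of nonzero components of any decomposition along the generalised
eigenspaces. -/
theorem localSpectrum_eq_support {n : ℕ} (T : Mat n) (x : Fin n → ℂ) (y : ℂ →₀ (Fin n → ℂ))
    (hy : ∀ m, ((T - m • (1 : Mat n)) ^ n) *ᵥ y m = 0) (hs : (y.sum fun _ v => v) = x) :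
    localSpectrum T x = {l | y l ≠ 0} := by
  ext l
  constructor
  · intro hl hc
    have h1 := (mem_localSpectrum_iff T x l).mp hl _ (decomp_ann T x y hy hs)
    exact eval_prod_ne y.support l (by simpa using hc) n h1
  · intro hl
    exact ⟨y, hy, hs, hl⟩


/-- For every size `n`, every nonzero vector `x0` and every map `φ` on the `n` by `n` complex
matrices: the local spectra of `[φ T, φ S]` and `[T, S]` at `x0` agree for all `T, S` if and
only if `φ` has standard form. -/
theorem result {n : ℕ} (x0 : Fin n → ℂ) (hx0 : x0 ≠ 0) (φ : Mat n → Mat n) :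
    (∀ T S : Mat n,
      localSpectrum (φ T * φ S - φ S * φ T) x0 = localSpectrum (T * S - S * T) x0) ↔
      IsStandard x0 φ :=
  standard_iff x0 hx0 φ

end Pool.Agent.Results.MP_add2b9_al.StandardForm
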